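import Pool.Agent.L7h45.NF.TopMain

/-!
# Maps to `T² × Σ₂` which are fold-free of corank one near their singular points

Let `N = T² × Σ₂`, `Σ₂` a closed surface of genus two, `W` a closed connected topological 4-manifold and
`f : W → N` a map, for example a homotopy equivalence. Suppose that `f` is a local homeomorphism at the
points off an open set `X ⊆ W`, and that `X` and an open set `Y ⊆ N` containing `f(X)` have smooth structures
in which `f : X → Y` is smooth, of rank at least three, a local diffeomorphism at all points off a compact
set and on a dense set, and without folds: near every point the Jacobian determinant of `f` in suitable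
smooth coordinates is nonnegative.

* Every neighbourhood of the graph of `f` contains the graph of a finite covering map `F : W → N` homotopic
  to `f`, equal to `f` off a compact subset of `X` and a local diffeomorphism `X → Y`.
* If `f` is a homotopy equivalence, or onto on fundamental groups, then `F` is a homeomorphism.

So the homotopy equivalences of this kind satisfy the conclusion of the Borel uniqueness conjecture for
`T² × Σ₂`, although its fundamental group is not good in the sense of Freedman and Quinn: surgery is not
used. `W` and `X` need not be smoothable, `f` may collapse arcs.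

PROOF. A neighbourhood of `f` (singular set) in `Y` is a smooth retract of an open subset of a Euclidean
space, by a map `ρ`. One looks for a smooth `V` with compact support such that the derivative of the
Jacobian of `ρ (f + ε V)` at `ε = 0` is positive at the singular points; then `ρ (f + ε V)` is a local
diffeomorphism for small `ε > 0`. With `f` elsewhere it is a local homeomorphism `W → N`, so a covering map.
A point at which no such `V` exists lies on a curve of such points, collapsed by `f`, and these curves
would fill a compact set; the neighbouring curves are compact, too, and `f` is monotone, so constant on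
them: but some of them contain regular points.

Project of helper20 (statements, assembly for smooth manifolds), with parts by helper8, helper13,
helper21, helper38, helper45 (closed and topological manifolds, covering argument), helper58, helper81,
helper82 and helper97; retractions by helper17.
-/

set_option autoImplicit false
set_option linter.unusedVariables false

open Set Filter Topology
open scoped Manifold ContDiff

noncomputable section

namespace Pool.Agent.Results.MP_340355_gt.FoldFreeMaps

/-- `ℝⁿ` -/
abbrev R (n : ℕ) : Type := EuclideanSpace ℝ (Fin n)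

section defs

variable {X Y : Type} [TopologicalSpace X] [ChartedSpace (R 4) X] [TopologicalSpace Y]
  [ChartedSpace (R 4) Y]

/-- `g` is a local diffeomorphism at `x` -/
def LocDiff (g : X → Y) (x : X) : Prop := IsLocalDiffeomorphAt (𝓡 4) (𝓡 4) ∞ g x

/-- the derivative of `g` at `x`, in the preferred charts -/
def der (g : X → Y) (x : X) : R 4 →L[ℝ] R 4 := mfderiv (𝓡 4) (𝓡 4) g x

/-- the rank of `g` at `x` is at least three -/
def RankAtLeastThree (g : X → Y) (x : X) : Prop :=
  ∃ v : Fin 3 → R 4, LinearIndependent ℝ fun i => der g x (v i)

/-- `g` has no fold at `x`: there are smooth coordinates `A` of `X` near `x = A z` and `B` of `Y` near `g x`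
in which the Jacobian determinant of `g` is nonnegative at all points near `z` -/
def NoFold (g : X → Y) (x : X) : Prop :=
  ∃ (A : R 4 → X) (B : Y → R 4) (z : R 4), A z = x ∧ LocDiff A z ∧
    LocDiff B (g x) ∧ ∀ᶠ w in 𝓝 z, 0 ≤ (fderiv ℝ (fun v => B (g (A v))) w).det

/-- `g` is smooth, of rank at least three, a local diffeomorphism on a dense set and off a compact
set, without folds -/
structure FoldFree (g : X → Y) : Prop where
  smooth : ContMDiff (𝓡 4) (𝓡 4) ∞ g
  rank : ∀ x, RankAtLeastThree g x
  dense : Dense {x | LocDiff g x}
  compact : IsCompact {x | ¬ LocDiff g x}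
  noFold : ∀ x, NoFold g x

variable {W N : Type} [TopologicalSpace W] [TopologicalSpace N]

/-- `i` and `j` are embeddings of `X`, `Y` as open subsets of `W`, `N`; the restriction of `f` to `X` is the
map `g : X → Y`; `f` is a local homeomorphism at the points off `X` -/
structure Restricts (i : X → W) (j : Y → N) (f : W → N) (g : X → Y) : Prop where
  openX : IsOpenEmbedding i
  openY : IsOpenEmbedding j
  comm : ∀ x, f (i x) = j (g x)
  off : IsLocalHomeomorphOn f (range i)ᶜ

/-- `h` is equal to `f` off a compact subset of `X` and a local diffeomorphism from `X` to `Y` -/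
def Improves (i : X → W) (j : Y → N) (f h : W → N) : Prop :=
  ∃ (C : Set X) (G : X → Y), IsCompact C ∧ (∀ z, z ∉ i '' C → h z = f z) ∧
    (∀ x, h (i x) = j (G x)) ∧ ∀ x, LocDiff G x

end defs

/-- `f` is onto on fundamental groups: every loop at a point `f x` is homotopic (relative to its end points)
to the image of a loop at `x` -/
def OntoPi1 {W N : Type} [TopologicalSpace W] [TopologicalSpace N] (f : C(W, N)) : Prop :=
  ∀ (x : W) (γ : Path (f x) (f x)), ∃ δ : Path x x, (δ.map f.continuous).Homotopic γ

/-- `f` is a homotopy equivalence -/
def IsHomotopyEquivalence {W N : Type} [TopologicalSpace W] [TopologicalSpace N] (f : C(W, N)) :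
    Prop := ∃ g : C(N, W), (g.comp f).Homotopic (ContinuousMap.id W) ∧
      (f.comp g).Homotopic (ContinuousMap.id N)

/-- `S` is a closed surface whose fundamental group is that of the closed orientable surface of genus two:
generators `a, b, c, d`, relation `[a, b] [c, d] = 1` -/
def IsGenusTwo (S : Type) [TopologicalSpace S] [ChartedSpace (R 2) S] : Prop :=
  CompactSpace S ∧ T2Space S ∧ ConnectedSpace S ∧ ∃ x : S, Nonempty (FundamentalGroup S x ≃*
    PresentedGroup ({FreeGroup.of (0 : Fin 4) * FreeGroup.of 1 * (FreeGroup.of 0)⁻¹ *
      (FreeGroup.of 1)⁻¹ * FreeGroup.of 2 * FreeGroup.of 3 * (FreeGroup.of 2)⁻¹ *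
      (FreeGroup.of 3)⁻¹} : Set (FreeGroup (Fin 4))))

/-- Let `N` be a topological 4-manifold homeomorphic to `T² × S`, `S` of genus two, and `f : W → N` a map from a
closed connected topological 4-manifold, whose restriction to an open set `X` is fold-free in smooth
structures of `X` and `Y ⊇ f(X)`, and which is a local homeomorphism off `X`. Then every neighbourhood of the
graph of `f` contains the graph of a covering map onto `N` homotopic to `f`, equal to `f` off a compact
subset of `X` and a local diffeomorphism from `X` to `Y`; and of a homeomorphism with these properties, if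
`f` is a homotopy equivalence or onto on fundamental groups. -/
theorem result (S : Type) [TopologicalSpace S] [ChartedSpace (R 2) S] (hS : IsGenusTwo S)
    (W N X Y : Type)
    [TopologicalSpace N] [ChartedSpace (R 4) N] (hN : Nonempty (N ≃ₜ (Circle × Circle × S)))
    [TopologicalSpace W] [T2Space W] [CompactSpace W] [ConnectedSpace W] [ChartedSpace (R 4) W]
    [TopologicalSpace X] [ChartedSpace (R 4) X] [IsManifold (𝓡 4) ∞ X]
    [TopologicalSpace Y] [ChartedSpace (R 4) Y] [IsManifold (𝓡 4) ∞ Y]
    (i : X → W) (j : Y → N) (f : C(W, N)) (g : X → Y) (hfg : Restricts i j f g) (hg : FoldFree g)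
    (O : Set (W × N)) (hO : IsOpen O) (hfO : ∀ z, (z, f z) ∈ O) :
    (∃ F : C(W, N), IsCoveringMap F ∧ Function.Surjective F ∧ (∀ z, (z, F z) ∈ O) ∧ f.Homotopic F ∧
      Improves i j f F) ∧
    (IsHomotopyEquivalence f ∨ OntoPi1 f →
      ∃ h : W ≃ₜ N, (∀ z, (z, h z) ∈ O) ∧ f.Homotopic ⟨h, h.continuous⟩ ∧ Improves i j f h) := by
  obtain ⟨hS1, hS2, hS3, -⟩ := hS
  obtain ⟨e⟩ := hN
  have : CompactSpace N := e.symm.compactSpace
  have : T2Space N := e.symm.t2Space
  have : ConnectedSpace N := e.symm.surjective.connectedSpace e.symm.continuous
  have hset : Pool.Agent.L7h20.NF.SettingY (m := 3) g := by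
    refine ⟨hg.smooth, hg.dense, fun x => ?_⟩
    obtain ⟨A, B, z, h1, h2, h3, h4⟩ := hg.noFold x
    exact ⟨A, B, z, h1, h2, by rw [h1]; exact h3, h4⟩
  have hrk : ∀ x, Pool.Agent.L7h20.NF.RkY (m := 3) g x := by
    intro x
    obtain ⟨v, hv⟩ := hg.rank x
    let D : R 4 →ₗ[ℝ] R 4 := (der g x).toLinearMap
    have h2 : LinearIndependent ℝ fun i => (⟨D (v i), v i, rfl⟩ : LinearMap.range D) :=
      LinearIndependent.of_comp (LinearMap.range D).subtype hv
    have h3 := h2.fintype_card_le_finrank
    rw [Fintype.card_fin] at h3
    exact h3
  constructor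
  · have : T2Space X := hfg.openX.isEmbedding.t2Space
    have : T2Space Y := hfg.openY.isEmbedding.t2Space
    obtain ⟨F, C, G, h1, h2, h3, h4, h5, h6, h7⟩ := Pool.Agent.L7h45.NF.top_loc hfg.openX hfg.openY f
      hfg.comm hset (fun x _ => hrk x) hg.compact hfg.off hO hfO
    refine ⟨F, isLocalHomeomorph_iff_isCoveringMap.1 h2, ?_, h3, h4, C, G, h1, h5, h7, h6⟩
    have hop : IsOpen (range F) := h2.isOpenMap.isOpen_range
    have hcl : IsClosed (range F) := (isCompact_range F.continuous).isClosed
    exact range_eq_univ.1 ((IsClopen.eq_univ ⟨hcl, hop⟩ (range_nonempty F)))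
  · intro hf
    have honto : Pool.Agent.L7h45.NF.OntoPi1 f := by
      rcases hf with ⟨g, h1, h2⟩ | h
      · exact Pool.Agent.L7h45.NF.OntoPi1.of_equiv f ⟨f, g, h1, h2⟩ rfl
      · exact h
    obtain ⟨h, C, G, h1, h2, h3, h4, h5, h6⟩ := Pool.Agent.L7h45.NF.top_main hfg.openX hfg.openY f
      hfg.comm hset (fun x _ => hrk x) hg.compact hfg.off honto hO hfO
    exact ⟨h, h2, h3, C, G, h1, h4, h6, h5⟩

end Pool.Agent.Results.MP_340355_gt.FoldFreeMaps
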