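import Pool.Agent.L7h20.LM.Fin
import Pool.Agent.L7h20.NF.All
import Pool.Agent.L7h21.LM.Boxes
import Pool.Agent.L7h21.LM.Det

/-!
# Homotopy equivalences to `T² × S`, `S` of genus two transverse to an action of `ℝᵏ`, with folds

Let `M` be a closed connected smooth 4-manifold, `N` a smooth 4-manifold homeomorphic to `T² × S`, `S` of genus two, with
smooth locally free actions `ψ`, `φ` of `ℝᵏ` (for example `k = 2` and the rotations of `T²`, or `k = 1` and any flow without rest points), and `f : M → N` a smooth
homotopy equivalence which is transverse to the orbits of `φ` and maps orbits to orbits,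
`f (ψ s x) = φ (a s x) (f x)` with a smooth cocycle `a`. So the singularities of `f` (folds, cusps, ...,
points of corank up to `k`) are those of maps `ℝᵏ → ℝᵏ` along the orbits.

Let `G x` be a mean of the derivatives of `f` along the orbit of `x`: for points `s₁, ..., sᵣ` of `ℝᵏ` and real
weights `wᵢ` with sum one, `G x` is the mean of the leafwise derivatives at the points `ψ sᵢ x`; it is the
derivative of `v ↦ ∑ wᵢ a (sᵢ + v, x)` at `v = 0`. If `G x` has rank at least `k - 1` and
determinant `≥ 0` for all `x`, and `> 0` for a dense set of `x` (for example if `det G x > 0` for all `x`),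
then `f` is homotopic to a diffeomorphism. Nothing is assumed about the derivative of `f` itself.

PROOF. Let `u x = ∑ wᵢ a (sᵢ, x)` and `F x = φ (u x) (f x)`. Then `F` is homotopic to `f`, and in
suitable flow boxes `F (s, p) = (b (s, p), p)` where `∂b/∂s = G` (averaging along orbits, a trick of Fuller
and Gromov). So `F` has rank at least three, no folds, and is regular on a dense set. By the theorem on
fold-free maps (project NF) `F` is a limit of diffeomorphisms homotopic to `F`.

By helper20 and helper21 (flow boxes, determinants); project NF: helper8, helper13, helper20, helper21, helper38,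
helper45, helper58, helper81, helper82 and helper97.
-/

set_option autoImplicit false

open Set Filter Topology
open scoped Manifold ContDiff

noncomputable section

namespace Pool.Agent.Results.MP_340355_gt.LeafwiseMeans

/-- `ℝⁿ` -/
abbrev R (n : ℕ) : Type := EuclideanSpace ℝ (Fin n)

/-- `ℝⁿ` as the model of `n`-manifolds -/
abbrev model (n : ℕ) : ModelWithCorners ℝ (R n) (R n) := 𝓡 n

section defs

variable {k n m : ℕ} {M N : Type} [TopologicalSpace M] [ChartedSpace (R n) M] [TopologicalSpace N]
  [ChartedSpace (R m) N]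

/-- `g : ℝᵏ × M → N` is a smooth map (`m = dim N`) -/
def SmoothFamily (g : R k → M → N) : Prop :=
  ContMDiff ((model k).prod (model n)) (model m) ∞ (fun p : R k × M => g p.1 p.2)

/-- the derivative of `f` at `x`, in the preferred charts (`n = dim M`, `m = dim N`) -/
def der (f : M → N) (x : M) : R n →L[ℝ] R m := mfderiv (model n) (model m) f x

/-- the derivative at `0` of the orbit map `s ↦ ψ s x` -/
def orbitDer (ψ : R k → M → M) (x : M) : R k →L[ℝ] R n := der (n := k) (m := n) (fun s => ψ s x) 0

/-- `ψ` is a smooth locally free action of the group `ℝᵏ` on `M` -/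
structure LocallyFreeAction (ψ : R k → M → M) : Prop where
  smooth : SmoothFamily (n := n) (m := n) ψ
  zero : ∀ x, ψ 0 x = x
  add : ∀ s t x, ψ (s + t) x = ψ s (ψ t x)
  /-- the orbit maps `s ↦ ψ s x` are immersions at `0` (hence everywhere) -/
  free : ∀ x, Function.Injective (orbitDer (n := n) ψ x)

/-- `f` is smooth and maps the orbits of `ψ` to orbits of `φ`, with the smooth cocycle `a` -/
structure MapsOrbits (ψ : R k → M → M) (φ : R k → N → N) (f : M → N) (a : R k → M → R k) :
    Prop where
  smooth : ContMDiff (model n) (model m) ∞ f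
  smooth_cocycle : SmoothFamily (n := n) (m := k) a
  orbit : ∀ s x, f (ψ s x) = φ (a s x) (f x)
  cocycle : ∀ s t x, a (s + t) x = a s (ψ t x) + a t x

/-- `f` is transverse to the orbits of `φ`: at all `x`, every tangent vector of `N` at `f x` is the sum of a
vector tangent to the orbit and a vector in the image of the derivative of `f` -/
def Transverse (φ : R k → N → N) (f : M → N) : Prop :=
  ∀ x (v : R m), ∃ (t : R k) (u : R n),
    orbitDer (n := m) φ (f x) t + der (n := n) (m := m) f x u = v

end defs

/-- the mean `∑ w i • D a (s i, x)` of the derivatives of `a (·, x)`, that is of the leafwise derivatives of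
`f` at the points `ψ (s i) x` -/
def meanDer {k r : ℕ} {M : Type} (w : Fin r → ℝ) (s : Fin r → R k) (a : R k → M → R k)
    (x : M) : R k →L[ℝ] R k :=
  fderiv ℝ (fun v : R k => ∑ i, w i • a (s i + v) x) 0

/-- the rank of the linear map `L` is at least `j` -/
def RankAtLeast {k : ℕ} (j : ℕ) (L : R k →L[ℝ] R k) : Prop :=
  ∃ v : Fin j → R k, LinearIndependent ℝ fun i => L (v i)

/-- the condition on the means of the derivatives of `f` along the orbits -/
structure PositiveMean {k r : ℕ} {M : Type} [TopologicalSpace M] (w : Fin r → ℝ)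
    (s : Fin r → R k) (a : R k → M → R k) : Prop where
  sum : ∑ i, w i = 1
  rank : ∀ x, RankAtLeast (k - 1) (meanDer w s a x)
  det : ∀ x, 0 ≤ (meanDer w s a x).det
  dense : Dense {x | 0 < (meanDer w s a x).det}

/-- `f` is a homotopy equivalence -/
def IsHomotopyEquivalence {M N : Type} [TopologicalSpace M] [TopologicalSpace N] (f : C(M, N)) :
    Prop := ∃ g : C(N, M), (g.comp f).Homotopic (ContinuousMap.id M) ∧
      (f.comp g).Homotopic (ContinuousMap.id N)

/-- `f` is homotopic to a diffeomorphism (a homeomorphism `h` with `h` and `h⁻¹` smooth) -/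
def HomotopicToDiffeo (n : ℕ) {M N : Type} [TopologicalSpace M] [ChartedSpace (R n) M]
    [TopologicalSpace N] [ChartedSpace (R n) N] (f : C(M, N)) : Prop :=
  ∃ h : M ≃ₜ N, ContMDiff (model n) (model n) ∞ h ∧ ContMDiff (model n) (model n) ∞ h.symm ∧
    f.Homotopic ⟨h, h.continuous⟩

/-- `S` is a closed surface whose fundamental group is that of the closed orientable surface of genus two:
generators `a, b, c, d`, relation `[a, b] [c, d] = 1` -/
def IsGenusTwo (S : Type) [TopologicalSpace S] [ChartedSpace (R 2) S] : Prop :=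
  CompactSpace S ∧ T2Space S ∧ ConnectedSpace S ∧ ∃ x : S, Nonempty (FundamentalGroup S x ≃*
    PresentedGroup ({FreeGroup.of (0 : Fin 4) * FreeGroup.of 1 * (FreeGroup.of 0)⁻¹ *
      (FreeGroup.of 1)⁻¹ * FreeGroup.of 2 * FreeGroup.of 3 * (FreeGroup.of 2)⁻¹ *
      (FreeGroup.of 3)⁻¹} : Set (FreeGroup (Fin 4))))

theorem surj_of {k n : ℕ} {M N : Type} [TopologicalSpace M] [ChartedSpace (R n) M]
    [IsManifold (model n) ∞ M] [TopologicalSpace N] [ChartedSpace (R n) N] [IsManifold (model n) ∞ N]
    {φ : R k → N → N} (hφ : LocallyFreeAction (n := n) φ) (f : M → N)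
    (hf : ContMDiff (model n) (model n) ∞ f) (ht : Transverse (n := n) (m := n) φ f) (x : M) :
    Function.Surjective (mfderiv ((𝓡 k).prod (𝓡 n)) (𝓡 n)
      (fun p : R k × M => φ p.1 (f p.2)) ((0 : R k), x)) := by
  intro v
  obtain ⟨t, u, h⟩ := ht x v
  refine ⟨(t, u), ?_⟩
  have hd : MDifferentiableAt ((𝓡 k).prod (𝓡 n)) (𝓡 n)
      (fun p : R k × M => φ p.1 (f p.2)) ((0 : R k), x) := by
    have h3 : ContMDiff ((𝓡 k).prod (𝓡 n)) (𝓡 n) ∞
        (fun p : R k × M => φ p.1 (f p.2)) :=
      ContMDiff.comp (g := fun q : R k × N => φ q.1 q.2) hφ.smooth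
        (contMDiff_fst.prodMk (hf.comp contMDiff_snd))
    exact h3.mdifferentiableAt (by simp)
  refine (mfderiv_prod_eq_add_apply (v := (t, u)) hd).trans ?_
  have h4 : (fun y : M => φ 0 (f y)) = f := funext fun y => hφ.zero _
  have h5 := congrArg (fun F : M → N => der (n := n) (m := n) F x u) h4
  rw [← h]
  exact congrArg (fun z => orbitDer (n := n) φ (f x) t + z) h5

/-- A smooth homotopy equivalence `f` from a closed connected smooth 4-manifold `M` to a smooth 4-manifold `N`
homeomorphic to `T² × S`, `S` of genus two, both with locally free actions of `ℝᵏ`, mapping orbits to orbits and transverse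
to the orbits, some mean of whose derivatives along the orbits has rank at least `k - 1` and nonnegative
determinant everywhere, and positive determinant at a dense set of points, is homotopic to a
diffeomorphism. -/
theorem result (S : Type) [TopologicalSpace S] [ChartedSpace (R 2) S] (hS : IsGenusTwo S)
    (k r : ℕ) (M N : Type)
    [TopologicalSpace M] [T2Space M] [CompactSpace M] [ConnectedSpace M] [ChartedSpace (R 4) M]
    [IsManifold (model 4) ∞ M]
    [TopologicalSpace N] [ChartedSpace (R 4) N] [IsManifold (model 4) ∞ N]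
    (hN : Nonempty (N ≃ₜ (Circle × Circle × S))) (f : C(M, N)) (hf : IsHomotopyEquivalence f)
    (ψ : R k → M → M) (hψ : LocallyFreeAction (n := 4) ψ)
    (φ : R k → N → N) (hφ : LocallyFreeAction (n := 4) φ)
    (a : R k → M → R k) (ha : MapsOrbits (n := 4) (m := 4) ψ φ f a)
    (ht : Transverse (n := 4) (m := 4) φ f)
    (w : Fin r → ℝ) (s : Fin r → R k) (hm : PositiveMean w s a) : HomotopicToDiffeo 4 f := by
  obtain ⟨hS1, hS2, hS3, -⟩ := hS
  obtain ⟨e⟩ := hN
  have : CompactSpace N := e.symm.compactSpace
  have : T2Space N := e.symm.t2Space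
  have : ConnectedSpace N := e.symm.surjective.connectedSpace e.symm.continuous
  obtain ⟨g, h1, h2⟩ := hf
  have hT := surj_of (n := 4) hφ f ha.smooth ht
  have key := Pool.Agent.L7h20.LM.main (m := 3) (w := w) (s := s) (a := a) Pool.Agent.L7h21.LM.s_BOXES
    Pool.Agent.L7h21.LM.s_DET Pool.Agent.L7h20.NF.s_COREY
    ⟨hψ.smooth, hψ.zero, hψ.add, hψ.free⟩ ⟨hφ.smooth, hφ.zero, hφ.add, hφ.free⟩ f
    ⟨ha.smooth, ha.smooth_cocycle, ha.orbit, ha.cocycle, hT⟩ hm.sum hm.det hm.dense ?_ g h1 h2
  · obtain ⟨Φ, hΦ⟩ := key
    exact ⟨Φ.toHomeomorph, Φ.contMDiff, Φ.symm.contMDiff, hΦ⟩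
  · intro x
    obtain ⟨v, hv⟩ := hm.rank x
    let D : R k →ₗ[ℝ] R k := (meanDer w s a x).toLinearMap
    have h2 : LinearIndependent ℝ fun i => (⟨D (v i), v i, rfl⟩ : LinearMap.range D) :=
      LinearIndependent.of_comp (LinearMap.range D).subtype hv
    have h3 := h2.fintype_card_le_finrank
    rw [Fintype.card_fin] at h3
    have h5 : k - 1 ≤ Module.finrank ℝ (LinearMap.range
      (Pool.Agent.L7h20.LM.Gd w s a x).toLinearMap) := h3
    omega

end Pool.Agent.Results.MP_340355_gt.LeafwiseMeans
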