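import Pool.Agent.L7h20.MO.Cover

/-!
# Maps to `T² × Σ₂` which are monotone for a cost function

Let `N` be a closed smooth 4-manifold homeomorphic to `T² × S`, `S` of genus two, `W` a closed connected
smooth 4-manifold, `f : W → N` a smooth map and `c : W × N → ℝ` a smooth function (the cost). Suppose that
the mixed second derivative satisfies `D_x D_y c (x, f x) (v, Df v) ≤ 0` for all tangent vectors `v` of `W`, and
that the functional `D_x D_y c (x, f x) (v, ·)` is not zero if `Df v = 0`, `v ≠ 0`. Then `f` is a limit of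
smooth coverings homotopic to `f`, and of diffeomorphisms if `f` is a homotopy equivalence. Nothing is
assumed about the rank of `f` or about its fibres: `f` may be constant on open sets.

PROOF. Let `κ : N → ℝᵃ` be an embedding with a smooth retraction `ρ` of a neighbourhood. Move `f` in the
direction of minus the gradient of the cost in the second variable: `V x = - ∇ᵤ c (x, ρ u)` at
`u = κ (f x)`, `G = ρ (κ ∘ f + ε V)`. Let `b (v, u) = - D_x D_y c (x, f x) (v, u)`. Then `b (v, Df v) ≥ 0`, and on
the kernel of `Df` one has `b (v, D_v V) = |b (v, ·)|² > 0`. The pairing of `v` with `DG v` increases with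
`ε` at the places where `Df v` is near `0`, so `DG` is invertible for small `ε > 0`, uniformly by
compactness, and `G` is a covering map homotopic to `f`.

By helper20; end of the proof (coverings) by helper45, retractions by helper17, calculus after helper8.
-/

set_option autoImplicit false

open Set Filter Topology
open scoped Manifold ContDiff

noncomputable section

namespace Pool.Agent.Results.MP_340355_gt.MonotoneForACost

/-- `ℝⁿ` -/
abbrev R (n : ℕ) : Type := EuclideanSpace ℝ (Fin n)

/-- `ℝ⁴` as the model of 4-manifolds -/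
abbrev model : ModelWithCorners ℝ (R 4) (R 4) := 𝓡 4

section defs

variable {W N : Type} [TopologicalSpace W] [ChartedSpace (R 4) W] [TopologicalSpace N]
  [ChartedSpace (R 4) N]

/-- `g` is a local diffeomorphism at `x` -/
def LocDiff (g : W → N) (x : W) : Prop := IsLocalDiffeomorphAt model model ∞ g x

/-- the derivative of `f` at `x`, in the preferred charts -/
def der (f : W → N) (x : W) : R 4 →L[ℝ] R 4 := mfderiv model model f x

/-- the derivative of the function `φ` at `x` -/
def der1 (φ : W → ℝ) (x : W) : R 4 →L[ℝ] ℝ := mfderiv model 𝓘(ℝ, ℝ) φ x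

/-- the mixed second derivative `D_x D_y c (x, y) (v, u)` -/
def mixed (c : W → N → ℝ) (x : W) (y : N) (v u : R 4) : ℝ := der1 (fun x' => der1 (c x') y u) x v

/-- `c` is a smooth function on `W × N` -/
def SmoothCost (c : W → N → ℝ) : Prop :=
  ContMDiff (model.prod model) 𝓘(ℝ, ℝ) ∞ (fun p : W × N => c p.1 p.2)

/-- `f` is smooth and infinitesimally monotone for the smooth cost `c`, which is nondegenerate on the
kernel of the derivative of `f` -/
structure IsMonotone (c : W → N → ℝ) (f : W → N) : Prop where
  smooth : ContMDiff model model ∞ f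
  cost : SmoothCost c
  le : ∀ (x : W) (v : R 4), mixed c x (f x) v (der f x v) ≤ 0
  nondegenerate : ∀ (x : W) (v : R 4), v ≠ 0 → der f x v = 0 → ∃ u : R 4, mixed c x (f x) v u ≠ 0

/-- `h` is a diffeomorphism -/
def IsDiffeo (h : W ≃ₜ N) : Prop := ContMDiff model model ∞ h ∧ ContMDiff model model ∞ h.symm

end defs

/-- `f` is onto on fundamental groups: every loop at a point `f x` is homotopic (relative to its end points)
to the image of a loop at `x` -/
def OntoPi1 {W N : Type} [TopologicalSpace W] [TopologicalSpace N] (f : C(W, N)) : Prop :=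
  ∀ (x : W) (γ : Path (f x) (f x)), ∃ δ : Path x x, (δ.map f.continuous).Homotopic γ

/-- `f` is a homotopy equivalence -/
def IsHomotopyEquivalence {W N : Type} [TopologicalSpace W] [TopologicalSpace N] (f : C(W, N)) :
    Prop := ∃ g : C(N, W), (g.comp f).Homotopic (ContinuousMap.id W) ∧
      (f.comp g).Homotopic (ContinuousMap.id N)

/-- `S` is a closed surface whose fundamental group is that of the closed orientable surface of genus two:
generators `a, b, c, d`, relation `[a, b] [c, d] = 1` -/
def IsGenusTwo (S : Type) [TopologicalSpace S] [ChartedSpace (R 2) S] : Prop :=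
  CompactSpace S ∧ T2Space S ∧ ConnectedSpace S ∧ ∃ x : S, Nonempty (FundamentalGroup S x ≃*
    PresentedGroup ({FreeGroup.of (0 : Fin 4) * FreeGroup.of 1 * (FreeGroup.of 0)⁻¹ *
      (FreeGroup.of 1)⁻¹ * FreeGroup.of 2 * FreeGroup.of 3 * (FreeGroup.of 2)⁻¹ *
      (FreeGroup.of 3)⁻¹} : Set (FreeGroup (Fin 4))))

/-- Let `N` be a closed smooth 4-manifold homeomorphic to `T² × S`, `S` of genus two, and `f : W → N` a smooth
map from a closed connected smooth 4-manifold which is infinitesimally monotone for a smooth cost `c`,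
nondegenerate on the kernel of `D f`. Then every neighbourhood of the graph of `f` contains the graph of
a smooth covering homotopic to `f`; and of a diffeomorphism homotopic to `f`, if `f` is a homotopy
equivalence or onto on fundamental groups. -/
theorem result (S : Type) [TopologicalSpace S] [ChartedSpace (R 2) S] (hS : IsGenusTwo S)
    (W N : Type)
    [TopologicalSpace N] [ChartedSpace (R 4) N] [IsManifold model ∞ N]
    (hN : Nonempty (N ≃ₜ (Circle × Circle × S)))
    [TopologicalSpace W] [T2Space W] [CompactSpace W] [ConnectedSpace W] [ChartedSpace (R 4) W]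
    [IsManifold model ∞ W] (f : C(W, N)) (c : W → N → ℝ) (hc : IsMonotone c f)
    (O : Set (W × N)) (hO : IsOpen O) (hfO : ∀ z, (z, f z) ∈ O) :
    (∃ F : C(W, N), IsCoveringMap F ∧ Function.Surjective F ∧ (∀ x, LocDiff F x) ∧
      (∀ z, (z, F z) ∈ O) ∧ f.Homotopic F) ∧
    (IsHomotopyEquivalence f ∨ OntoPi1 f →
      ∃ h : W ≃ₜ N, IsDiffeo h ∧ (∀ z, (z, h z) ∈ O) ∧ f.Homotopic ⟨h, h.continuous⟩) := by
  obtain ⟨hS1, hS2, hS3, -⟩ := hS
  obtain ⟨e⟩ := hN
  have : CompactSpace N := e.symm.compactSpace
  have : T2Space N := e.symm.t2Space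
  have : ConnectedSpace N := e.symm.surjective.connectedSpace e.symm.continuous
  have hM : Pool.Agent.L7h20.MO.Mono (m := 3) c f :=
    ⟨hc.smooth, hc.cost, hc.le, hc.nondegenerate⟩
  refine ⟨Pool.Agent.L7h20.MO.cover f c hM hO hfO, fun hf => ?_⟩
  have honto : Pool.Agent.L7h45.NF.OntoPi1 f := by
    rcases hf with ⟨g, h1, h2⟩ | h
    · exact Pool.Agent.L7h45.NF.OntoPi1.of_equiv f ⟨f, g, h1, h2⟩ rfl
    · exact h
  obtain ⟨Φ, h1, h2⟩ := Pool.Agent.L7h20.MO.main f c hM honto hO hfO
  exact ⟨Φ.toHomeomorph, ⟨Φ.contMDiff, Φ.symm.contMDiff⟩, h1, h2⟩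

end Pool.Agent.Results.MP_340355_gt.MonotoneForACost
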